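import Mathlib
import Pool.Agent.Helper3.LR.Final

/-!
# Milnor K-theory of local rings in characteristic `p`

Let `k` be an infinite field which is algebraic over `F_p`, and let `A` be a local `k`-algebra
(commutative; it may be singular, non-reduced, non-noetherian) in which every `d + 1` elements are
algebraically dependent over `k`.  Then the Milnor K-group `K_n^M(A)` is torsion for every
`n ≥ 2 * 4 ^ d + 4 * d`.

For every local ring `A` with infinite residue field `K_n^M(A) ⊗ ℚ` is the part of weight `n` of
`K_n(A) ⊗ ℚ` (Soulé, Nesterenko-Suslin).  The theorem for the singular local rings at the singular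
point of `(𝔸¹ / (0 ∼ 1)) ^ c` over a field `F` concerns the groups `H ^ (n - c) (F, ℚ(n))`.

Sketch of the proof, for a rational valued symbol `b` on `n + 1` units of `A`, `n + 2 = 2 m`.
* Let `B` be a finite-dimensional `k`-subspace of `A`.  A relation `∑ f_i g_i = 0` with `n + 2`
  terms in `B` (all `f_i`, `g_i` and the partial sums units) gives a relation between the values of
  `b`.  A second moment argument over finite fields `F_q`, `q → ∞`, shows
  `b(X_1/X_0, ..., X_(n+1)/X_0) = 0` for all tuples `X` in `B` which have an admissible complement
  such that all the mixed tuples generate the space `B * B`.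
* If `u_1, ..., u_m` generate `B * B` then `(u, u)` is such a tuple up to scalars, with complement
  `(u, -u)`.  Generating tuples with prescribed weights are obtained from monomials by sorting.
* Any `n + 1` units are products of quotients of pairs of finite-dimensional subspaces, of which at
  most `d` are nontrivial at any place (subdivision of a fan), and generic members of these
  subspaces give weights, at most `2 d` of which vanish at any point.
-/

set_option autoImplicit false

universe u

namespace Pool.Agent.Results.MP_de59b4_ag.LocalRings

open Function

/-- The relations of Milnor K-theory, in the free abelian group on the `n`-tuples of units of the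
ring `A`: additivity in every entry (the entries are written multiplicatively), and the Steinberg
relation for consecutive entries with sum `1`. -/
def milnorRelations (n : ℕ) (A : Type*) [CommRing A] : Set (FreeAbelianGroup (Fin n → Aˣ)) :=
  {z | (∃ (a : Fin n → Aˣ) (i : Fin n) (x y : Aˣ),
      z = FreeAbelianGroup.of (update a i (x * y)) - FreeAbelianGroup.of (update a i x)
        - FreeAbelianGroup.of (update a i y)) ∨
    (∃ (a : Fin n → Aˣ) (i j : Fin n), (i : ℕ) + 1 = j ∧ (a i : A) + a j = 1 ∧
      z = FreeAbelianGroup.of a)}

/-- The Milnor K-group `K_n^M(A)`: the `n`-fold tensor power (over `ℤ`) of the group of units of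
`A`, modulo the Steinberg relations. -/
abbrev MilnorK (n : ℕ) (A : Type*) [CommRing A] : Type _ :=
  FreeAbelianGroup (Fin n → Aˣ) ⧸ AddSubgroup.closure (milnorRelations n A)

/-- Let `k` be an infinite field, algebraic over `F_p`, and `A` a local `k`-algebra in which every
`d + 1` elements are algebraically dependent over `k`.  Then every element of `K_n^M(A)` has finite
order as soon as `n ≥ 2 * 4 ^ d + 4 * d`. -/
theorem result : ∀ (p : ℕ) [Fact p.Prime] (k A : Type u) [Field k] [Algebra (ZMod p) k]
    [Algebra.IsAlgebraic (ZMod p) k] [Infinite k] [CommRing A] [IsLocalRing A] [Algebra k A]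
    (d n : ℕ), (∀ a : Fin (d + 1) → A, ¬ AlgebraicIndependent k a) → 2 * 4 ^ d + 4 * d ≤ n →
    ∀ z : MilnorK n A, ∃ N : ℕ, 0 < N ∧ N • z = 0 := by
  intro p _ k A _ _ _ _ _ _ _ d n hd hn z
  exact Pool.Agent.Helper3.LR.all_Fin d k A p hd n hn z

end Pool.Agent.Results.MP_de59b4_ag.LocalRings
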