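import Mathlib
import Pool.Agent.Helper47.Par.MilK
import Pool.Agent.Helper44.K4.Final

/-!
# Milnor K-theory of fields of transcendence degree two over a finite field

Let `F` be a field of transcendence degree at most two over a finite field.  Then the Milnor
K-group `K_n^M(F)` is torsion for every `n ≥ 4`.

Parshin's conjecture predicts that `K_n^M(F)` is torsion for every `n ≥ 3`.

Sketch of the proof, for a rational valued symbol `b` on `(E^*)^4`, where `E` is the algebraic
closure of `F`, and `k` is the algebraic closure of the prime field.
* Let `B` be a finite dimensional `k`-subspace of `E`.  A relation `∑ f_i g_i = 0` with five terms in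
  `B` gives a relation between the values of `b`.  A second moment argument over finite fields
  `F_q`, `q → ∞`, shows `b(X_1/X_0, ..., X_4/X_0) = 0` for all tuples `X` in `B` which have a
  complement such that all the 32 mixed tuples generate the space `B * B`.
* Such tuples exist with `X_i = v_i s_i` for given weights `v_i` without common zeros, of which
  three vanish together at finitely many points at most.  (Comparator networks of subspaces, and
  a degeneration to monomials.)
* Any four elements of `E^*` are products of differences of classes of finite dimensional
  subspaces, of which at most two are nontrivial at any place of `E` (subdivision of a fan), and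
  generic members of these subspaces give weights as above.
-/

set_option autoImplicit false

universe u v

namespace Pool.Agent.Results.MP_de59b4_ag.MilnorTrdegTwo

open Function

/-- The relations of Milnor K-theory, in the free abelian group on the `n`-tuples of nonzero
elements of `F`: additivity in every entry (the entries are written multiplicatively), and the
Steinberg relation for consecutive entries with sum `1`. -/
def milnorRelations (n : ℕ) (F : Type*) [Field F] : Set (FreeAbelianGroup (Fin n → Fˣ)) :=
  {z | (∃ (a : Fin n → Fˣ) (i : Fin n) (x y : Fˣ),
      z = FreeAbelianGroup.of (update a i (x * y)) - FreeAbelianGroup.of (update a i x)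
        - FreeAbelianGroup.of (update a i y)) ∨
    (∃ (a : Fin n → Fˣ) (i j : Fin n), (i : ℕ) + 1 = j ∧ (a i : F) + a j = 1 ∧
      z = FreeAbelianGroup.of a)}

/-- The Milnor K-group `K_n^M(F)`: the `n`-fold tensor power (over `ℤ`) of the multiplicative group
of `F`, modulo the Steinberg relations. -/
abbrev MilnorK (n : ℕ) (F : Type*) [Field F] : Type _ :=
  FreeAbelianGroup (Fin n → Fˣ) ⧸ AddSubgroup.closure (milnorRelations n F)

/-- Let `F` be an extension of a finite field `k` of transcendence degree at most two.  Then every
element of `K_n^M(F)` has finite order as soon as `n ≥ 4`. -/
theorem result : ∀ (k : Type u) [Field k] [Finite k] (F : Type v) [Field F] [Algebra k F]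
    (n : ℕ), Algebra.trdeg k F ≤ 2 → 4 ≤ n →
    ∀ z : MilnorK n F, ∃ N : ℕ, 0 < N ∧ N • z = 0 := by
  intro k _ _ F _ _ n hr hn z
  exact Pool.Agent.Helper47.Par.torsion_of_van
    (Pool.Agent.Helper44.K4.van_four (k := k) (F := F) hr hn) z

end Pool.Agent.Results.MP_de59b4_ag.MilnorTrdegTwo
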