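import Mathlib
import Pool.Agent.Helper47.Par.MilK
import Pool.Agent.Helper47.Uni.Main

/-!
# Milnor K-theory of fields of finite transcendence degree over a finite field

Let `F` be a field of transcendence degree at most `r` over a finite field.  Then the Milnor
K-group `K_n^M(F)` is torsion for every `n ≥ 2 * 3 ^ r`.

The bound depends only on the transcendence degree.  Parshin's conjecture predicts that
`K_n^M(F)` is torsion for every `n > r`.

The proof is elementary.  Let `A_M` be the finite space of the polynomials of degree at most `M` in
the entries of a given symbol.  For a suitable `M`, the theorem of Chevalley and Warning gives for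
all nonzero `f_1, ..., f_n` in `A_M` a nontrivial relation `c_0 ^ 2 + ∑ c_i ^ 2 * f_i = 0` with
`c_i` in `A_M`, and by the Steinberg relation with several terms the symbol `{f_1, ..., f_n}` is
twice a combination of symbols with entries in `A_M`, up to torsion.  So these symbols generate,
modulo torsion, a finitely generated group that is divisible by `2`.
-/

set_option autoImplicit false

universe u v

namespace Pool.Agent.Results.MP_de59b4_ag.UniformMilnor

open Function

/-- The relations of Milnor K-theory, in the free abelian group on the `n`-tuples of nonzero
elements of `F`: additivity in every entry (the entries are written multiplicatively), and the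
Steinberg relation for consecutive entries with sum `1`. -/
def milnorRelations (n : ℕ) (F : Type*) [Field F] : Set (FreeAbelianGroup (Fin n → Fˣ)) :=
  {z | (∃ (a : Fin n → Fˣ) (i : Fin n) (x y : Fˣ),
      z = FreeAbelianGroup.of (update a i (x * y)) - FreeAbelianGroup.of (update a i x)
        - FreeAbelianGroup.of (update a i y)) ∨
    (∃ (a : Fin n → Fˣ) (i j : Fin n), (i : ℕ) + 1 = j ∧ (a i : F) + a j = 1 ∧
      z = FreeAbelianGroup.of a)}

/-- The Milnor K-group `K_n^M(F)`: the `n`-fold tensor power (over `ℤ`) of the multiplicative group
of `F`, modulo the Steinberg relations. -/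
abbrev MilnorK (n : ℕ) (F : Type*) [Field F] : Type _ :=
  FreeAbelianGroup (Fin n → Fˣ) ⧸ AddSubgroup.closure (milnorRelations n F)

/-- Let `F` be an extension of a finite field `k` of transcendence degree at most `r`.  Then every
element of `K_n^M(F)` has finite order as soon as `n ≥ 2 * 3 ^ r`. -/
theorem result : ∀ (k : Type u) [Field k] [Finite k] (F : Type v) [Field F] [Algebra k F]
    (r n : ℕ), Algebra.trdeg k F ≤ r → 2 * 3 ^ r ≤ n →
    ∀ z : MilnorK n F, ∃ N : ℕ, 0 < N ∧ N • z = 0 := by
  intro k _ _ F _ _ r n hr hn z
  exact Pool.Agent.Helper47.Par.torsion_of_van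
    (Pool.Agent.Helper47.Uni.van_uniform (k := k) (F := F) hr hn) z

end Pool.Agent.Results.MP_de59b4_ag.UniformMilnor
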