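import Mathlib
import Pool.Agent.Helper41.ZC.Bridge
import Pool.Agent.Helper41.KA.AllD

set_option autoImplicit false

/-!
# `CH_0(X, 1) ⊗ ℚ = 0` for smooth projective varieties of all dimensions over finite fields

For a smooth projective variety `X` of dimension `d` the group
`CH_0(X, 1) = CH^d(X, 1) = H^{2d-1}(X, ℤ(d))` is the homology in the middle of

`⊕_W K_2(k(W)) → ⊕_C k(C)^* → ⊕_Q ℤ`

(`W`, `C`, `Q` the integral closed subvarieties of `X` of dimension `2`, `1`, `0`).  We prove that it
is torsion when the ground field is an algebraic extension of `𝔽_p`, for instance a finite field.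
The definitions are in `Pool.Agent.Helper41.ZC.Defs`.
-/

universe u

namespace Pool.Agent.Results.MP_de59b4_ag.ZeroCyclesK1

open Pool.Agent.Helper41.ZC

/-- Let `k` be an algebraic extension of `𝔽_p`, for instance a finite field, and let `X` be a smooth
projective geometrically integral variety of dimension `d ≥ 2` over `k`.  Let `a C` be rational
functions on the integral curves `C` in `X`, almost all equal to `1`, the sum of whose divisors is
zero: at each closed point `Q` of `X` the sum of the orders of the `a C` vanishes.  Then there are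
`n > 0` and finitely many integral surfaces `W_i` in `X` and `f_i, g_i` in `k(W_i)^*` such that
`a C ^ n` is the product of the components at `C` of the boundaries of the symbols `{f_i, g_i}`, for
all integral curves `C` in `X`. -/
theorem result (p : ℕ) [Fact p.Prime] (k : Type u) [Field k] [CharP k p]
    [Algebra (ZMod p) k] [Algebra.IsAlgebraic (ZMod p) k] (r d : ℕ) (hd : 2 ≤ d)
    (X : Subvar k r) (hX : IsSmoothVar d X) (hX' : IsGeomInt X)
    (a : (C : Subvar k r) → (FF C)ˣ)
    (hfin : {C : Subvar k r | X.I ≤ C.I ∧ dim C = 1 ∧ a C ≠ 1}.Finite)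
    (hcyc : ∀ Q : Subvar k r, X.I ≤ Q.I → dim Q = 0 →
      ∑ᶠ C ∈ {C : Subvar k r | X.I ≤ C.I ∧ dim C = 1}, ordQ (gp C) Q (a C : FF C) = 0) :
    ∃ n : ℕ, 0 < n ∧ ∃ s : List ((W : Subvar k r) × (FF W × FF W)),
      (∀ w ∈ s, X.I ≤ w.1.I ∧ dim w.1 = 2 ∧ w.2.1 ≠ 0 ∧ w.2.2 ≠ 0) ∧
      ∀ C : Subvar k r, X.I ≤ C.I → dim C = 1 →
        a C ^ n = (s.map fun w => bd (gp w.1) C w.2.1 w.2.2).prod :=
  main Pool.Agent.Helper41.KA.kFINA p k r d hd X hX hX' a hfin hcyc

end Pool.Agent.Results.MP_de59b4_ag.ZeroCyclesK1
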